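import Pool.Agent.X328.TAU.Stm
import Pool.Agent.X169.GN.ALG

/-! Project TAU of helper328: the parameters are algebraic over the field of the multipliers
(adapted from `Pool.Agent.X169.GN.ALG`). -/

set_option autoImplicit false

open Finset Polynomial

noncomputable section

namespace Pool.Agent.X191.TAU

open Pool.Agent.X328.GN (Ix nu de hm it wrA S_IT)
open Pool.Agent.X328.TAU
open Pool.Agent.X169.GN (nu_zero de_zero it_zero nu_monic nu_deg de_deg exists_val cop prod_facts
  exists_der)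

theorem Ph_zero {A : Type*} [CommRing A] (d : ℕ) : Ph2 d (fun _ => (0 : A)) = X ^ d ^ 2 - X := by
  rw [Ph2, P2, Q2, nu_zero, de_zero, it_zero, mul_one]

theorem lead_Ph (hCHI : S_CHI.{0, 0}) (d : ℕ) (hd : 2 ≤ d) :
    (Ph2 d (fun i => (MvPolynomial.X i : MvPolynomial (Ix d) ℚ))).coeff (d ^ 2) ≠ 0 := by
  intro h
  let ev : MvPolynomial (Ix d) ℚ →+* ℚ := (MvPolynomial.aeval fun _ => (0 : ℚ)).toRingHom
  have h1 := (hCHI.1 (MvPolynomial (Ix d) ℚ) ℚ ev d (fun i => MvPolynomial.X i)).2.2.1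
  have h2 : (fun i : Ix d => ev (MvPolynomial.X i)) = fun _ => (0 : ℚ) := by
    funext i
    exact MvPolynomial.aeval_X _ _
  rw [h2, Ph_zero] at h1
  have h3 := congrArg (fun p : ℚ[X] => p.coeff (d ^ 2)) h1
  simp only [coeff_map, h, map_zero, coeff_sub, coeff_X_pow_self] at h3
  have h4 : (X : ℚ[X]).coeff (d ^ 2) = 0 := by
    rw [coeff_X, if_neg]
    have : 2 ^ 2 ≤ d ^ 2 := Nat.pow_le_pow_left hd 2
    omega
  rw [h4] at h3
  norm_num at h3

theorem lead_chi (hCHI : S_CHI.{0, 0}) (d : ℕ) (hd : 2 ≤ d) :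
    (chi2 d (fun i => (MvPolynomial.X i : MvPolynomial (Ix d) ℚ))).coeff (d ^ 2) ≠ 0 := by
  intro h
  have hd3 : 2 ^ 2 ≤ d ^ 2 := Nat.pow_le_pow_left hd 2
  let Om := AlgebraicClosure ℚ
  let ev : MvPolynomial (Ix d) ℚ →+* Om := (MvPolynomial.aeval fun _ => (0 : Om)).toRingHom
  have h1 := (hCHI.1 (MvPolynomial (Ix d) ℚ) Om ev d (fun i => MvPolynomial.X i)).2.2.2
  have h2 : (fun i : Ix d => ev (MvPolynomial.X i)) = fun _ => (0 : Om) := by
    funext i
    exact MvPolynomial.aeval_X _ _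
  rw [h2] at h1
  have hPh : (Ph2 d (fun _ => (0 : Om))).natDegree = d ^ 2 := by
    rw [Ph_zero]
    rw [natDegree_sub_eq_left_of_natDegree_lt]
    · exact natDegree_X_pow _
    · rw [natDegree_X_pow, natDegree_X]
      omega
  have hsp := IsAlgClosed.splits (Ph2 d (fun _ => (0 : Om)))
  obtain ⟨c, hc, hcc⟩ := hCHI.2 Om d hd (fun _ => 0) (by
    rw [nu_zero, de_zero]
    exact isCoprime_one_right) hPh hsp
  have hcard : ((Ph2 d (fun _ => (0 : Om))).roots.map (ml2 d fun _ => 0)).card = d ^ 2 := by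
    rw [Multiset.card_map, ← hPh]
    exact (splits_iff_card_roots.1 hsp)
  have h3 := (prod_facts c _ _ hcard).2
  rw [Multiset.map_map] at h3
  have h4 : (chi2 d (fun _ => (0 : Om))).coeff (d ^ 2) = c := by
    rw [hcc]
    exact h3
  rw [← h1, coeff_map, h, map_zero] at h4
  exact hc h4.symm

/-- **ALG** -/
theorem t_ALG (hRIG : S_RIG.{0}) (hCHI : S_CHI.{0, 0}) (hIT : S_IT.{0}) : S_ALG := by
  intro d hd R c
  refine ⟨lead_chi hCHI d hd, lead_Ph hCHI d hd, fun i => ?_⟩
  have hd3 : 2 ^ 2 ≤ d ^ 2 := Nat.pow_le_pow_left hd 2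
  by_contra hcon
  set F := FractionRing R with hF
  set tF : Ix d → F := fun i => algebraMap R F (MvPolynomial.X i) with htF
  set L₀ := IntermediateField.adjoin ℚ (Set.range (vals d hd tF)) with hL₀
  have hch : CharZero F := inferInstance
  let Om := AlgebraicClosure F
  have hchOm : CharZero Om := charZero_of_injective_algebraMap (algebraMap F Om).injective
  let φ : R →+* Om := (algebraMap F Om).comp (algebraMap R F)
  have hφ : Function.Injective φ :=
    (algebraMap F Om).injective.comp (IsFractionRing.injective R F)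
  obtain ⟨O, hO1, hO2⟩ := exists_val d Om φ hφ
  let t : Ix d → Om := fun i => φ (MvPolynomial.X i)
  have hcop := cop hd O t hO2
  obtain ⟨f1, f2, f3, f4⟩ := hCHI.1 R Om φ d (fun i => MvPolynomial.X i)
  obtain ⟨-, -, -, f5⟩ := hCHI.1 R F (algebraMap R F) d (fun i => MvPolynomial.X i)
  -- the degree of `Ph`
  obtain ⟨-, g2, g3, g4, -⟩ := hIT Om d hd (nu d t) (de d t) hcop (nu_monic t) (nu_deg t)
    (de_deg hd t) 2
  have hPhc : (Ph2 d t).coeff (d ^ 2) ≠ 0 := by
    have e1 : Ph2 d t = (Ph2 d (fun i => (MvPolynomial.X i : R))).map φ := f3.symm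
    rw [e1, coeff_map]
    exact fun h => lead_Ph hCHI d hd (hφ (by rw [h, map_zero]))
  have hPhd : (Ph2 d t).natDegree = d ^ 2 := by
    refine le_antisymm ?_ (le_natDegree_of_ne_zero hPhc)
    refine (natDegree_sub_le _ _).trans (max_le g3.le ?_)
    refine natDegree_mul_le.trans ?_
    rw [natDegree_X]
    have : (Q2 d t).natDegree < d ^ 2 := g4
    omega
  have hsp := IsAlgClosed.splits (Ph2 d t)
  obtain ⟨c', hc', hcc⟩ := hCHI.2 Om d hd t hcop hPhd hsp
  have hcard : ((Ph2 d t).roots.map (ml2 d t)).card = d ^ 2 := by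
    rw [Multiset.card_map, ← hPhd]
    exact (splits_iff_card_roots.1 hsp)
  obtain ⟨k1, k2⟩ := prod_facts c' _ _ hcard
  rw [Multiset.map_map] at k1 k2
  have k1' : (chi2 d t).natDegree ≤ d ^ 2 := by
    rw [hcc]
    exact k1
  have k2' : (chi2 d t).coeff (d ^ 2) = c' := by
    rw [hcc]
    exact k2
  have k3 : ∀ j, (chi2 d t).coeff j = φ (c.coeff j) := fun j => by
    rw [← coeff_map]
    exact congrArg (fun p : Om[X] => p.coeff j) f4.symm
  have k4 : ∀ j, (chi2 d tF).coeff j = algebraMap R F (c.coeff j) := fun j => by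
    rw [← coeff_map]
    exact congrArg (fun p : F[X] => p.coeff j) f5.symm
  -- the base field
  haveI tow : IsScalarTower L₀ F Om := inferInstance
  have htr : Transcendental L₀ (t i) := by
    intro h
    apply hcon
    have h1 : t i = algebraMap F Om (algebraMap R F (MvPolynomial.X i)) := rfl
    rw [h1] at h
    exact (isAlgebraic_algebraMap_iff (algebraMap F Om).injective).1 h
  haveI : CharZero L₀ := inferInstance
  obtain ⟨D, hD, hDa⟩ := exists_der L₀ Om (t i) htr
  have hmemL : ∀ j : Fin (d ^ 2 + 1),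
      algebraMap R F (c.coeff j) / algebraMap R F (c.coeff (d ^ 2)) ∈ L₀ := fun j => by
    rw [← k4, ← k4]
    exact IntermediateField.subset_adjoin _ _ ⟨some j, rfl⟩
  have hla : D (la d hd t) = 0 := by
    apply hDa
    have h1 : la d hd t = algebraMap F Om (la d hd tF) := rfl
    have h2 : la d hd tF ∈ L₀ := IntermediateField.subset_adjoin _ _ ⟨none, rfl⟩
    rw [h1]
    have h3 : algebraMap F Om (la d hd tF) = algebraMap L₀ Om ⟨_, h2⟩ := by
      rw [IsScalarTower.algebraMap_apply L₀ F Om]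
      rfl
    rw [h3]
    exact isAlgebraic_algebraMap _
  have hr0 : algebraMap R F (c.coeff (d ^ 2)) ≠ 0 := fun h =>
    lead_chi hCHI d hd (IsFractionRing.injective R F (by rw [h, map_zero]))
  have hml : ∀ x, (Ph2 d t).eval x = 0 → D (ml2 d t x) = 0 := by
    intro x hx
    have hroot : (chi2 d t).eval (ml2 d t x) = 0 := by
      rw [hcc, eval_mul, eval_multiset_prod]
      rw [Multiset.map_map]
      have h0 : Ph2 d t ≠ 0 := fun h => by rw [h, natDegree_zero] at hPhd; omega
      rw [Multiset.prod_eq_zero, mul_zero]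
      refine Multiset.mem_map.2 ⟨x, (mem_roots h0).2 hx, ?_⟩
      simp
    let p : L₀[X] := ∑ j : Fin (d ^ 2 + 1), C (⟨_, hmemL j⟩ : L₀) * X ^ (j : ℕ)
    have hp1 : p.coeff (d ^ 2) = 1 := by
      rw [finset_sum_coeff, Finset.sum_eq_single (⟨d ^ 2, Nat.lt_succ_self _⟩ : Fin (d ^ 2 + 1))]
      · rw [coeff_C_mul, coeff_X_pow_self, mul_one]
        apply Subtype.ext
        exact div_self hr0
      · intro j _ hj
        rw [coeff_C_mul, coeff_X_pow, if_neg, mul_zero]
        intro h
        exact hj (Fin.ext h.symm)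
      · intro h
        exact absurd (Finset.mem_univ _) h
    have hp0 : p ≠ 0 := fun h => by rw [h, coeff_zero] at hp1; exact zero_ne_one hp1
    have hpe : aeval (ml2 d t x) p = 0 := by
      have h1 : ∀ j : Fin (d ^ 2 + 1), algebraMap L₀ Om (⟨_, hmemL j⟩ : L₀) =
          φ (c.coeff j) / φ (c.coeff (d ^ 2)) := fun j => by
        rw [IsScalarTower.algebraMap_apply L₀ F Om]
        show algebraMap F Om (algebraMap R F (c.coeff j) / algebraMap R F (c.coeff (d ^ 2))) = _
        rw [map_div₀]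
        rfl
      rw [map_sum]
      simp only [map_mul, aeval_C, map_pow, aeval_X, h1]
      rw [eval_eq_sum_range' (Nat.lt_succ_of_le k1'), Finset.sum_range] at hroot
      simp only [k3] at hroot
      have h2 : ∑ j : Fin (d ^ 2 + 1), φ (c.coeff j) / φ (c.coeff (d ^ 2)) * ml2 d t x ^ (j : ℕ) =
          (∑ j : Fin (d ^ 2 + 1), φ (c.coeff j) * ml2 d t x ^ (j : ℕ)) / φ (c.coeff (d ^ 2)) := by
        rw [Finset.sum_div]
        refine Finset.sum_congr rfl fun j _ => ?_
        ring
      rw [h2, hroot, zero_div]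
    exact hDa _ ⟨p, hp0, hpe⟩
  have hfin := hRIG Om O d hd t hO1 hO2 hsp D hla (fun x hx => hml x hx) i
  have : D (t i) = 0 := hfin
  rw [hD] at this
  exact one_ne_zero this

end Pool.Agent.X191.TAU
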